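import Pool.Agent.N889.WU.Stm

/-! Project WU (helper889), task LOC2 (helper78): local regularity for a second preimage. -/

set_option autoImplicit false

open Polynomial

namespace Pool.Agent.N78.WU

open Pool.Agent.N889.WU

universe u

section

variable {k L : Type u} [Field k] [Field L] [Algebra k L] (A : ValuationSubring L)

theorem v_const (hk : ∀ a : k, algebraMap k L a ∈ A) {c : k} (hc : c ≠ 0) :
    A.valuation (algebraMap k L c) = 1 := by
  have h0 : A.valuation (algebraMap k L c) ≠ 0 := by
    rw [Valuation.ne_zero_iff]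
    simpa using hc
  apply le_antisymm ((A.valuation_le_one_iff _).2 (hk c))
  have h := (A.valuation_le_one_iff _).2 (hk c⁻¹)
  rw [map_inv₀, map_inv₀] at h
  exact (inv_le_one₀ (zero_lt_iff.2 h0)).1 h

theorem v_poly (hk : ∀ a : k, algebraMap k L a ∈ A) {z : L} (hz : 1 < A.valuation z) {g : k[X]}
    (hg : g ≠ 0) : A.valuation (aeval z g) = A.valuation z ^ g.natDegree := by
  have hz0 : A.valuation z ≠ 0 := (zero_lt_one.trans hz).ne'
  rw [aeval_eq_sum_range, Finset.sum_range_succ]
  have h1 : A.valuation (g.coeff g.natDegree • z ^ g.natDegree) = A.valuation z ^ g.natDegree := by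
    rw [Algebra.smul_def, map_mul, v_const A hk (by simpa using hg), one_mul, map_pow]
  have h2 : A.valuation (∑ i ∈ Finset.range g.natDegree, g.coeff i • z ^ i) <
      A.valuation z ^ g.natDegree := by
    refine Valuation.map_sum_lt _ (pow_ne_zero _ hz0) fun i hi => ?_
    rw [Finset.mem_range] at hi
    rw [Algebra.smul_def, map_mul, map_pow]
    calc A.valuation (algebraMap k L (g.coeff i)) * A.valuation z ^ i ≤
        1 * A.valuation z ^ i := by
          gcongr
          exact (A.valuation_le_one_iff _).2 (hk _)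
      _ = A.valuation z ^ i := one_mul _
      _ < A.valuation z ^ g.natDegree := pow_lt_pow_right₀ hz hi
  rw [Valuation.map_add_eq_of_lt_right _ (by rw [h1]; exact h2), h1]

/-- a uniformizer -/
theorem exists_unif (hA : IsDiscreteValuationRing A) {z : L} (hz : 1 < A.valuation z) :
    ∃ (π : L) (n : ℕ), π ∈ A ∧ 1 ≤ n ∧ A.valuation z * A.valuation π ^ n = 1 ∧
      ∀ y : L, 1 < A.valuation y → 1 ≤ A.valuation (y * π) := by
  obtain ⟨ϖ, hϖ⟩ := IsDiscreteValuationRing.exists_irreducible A
  have hϖm := (IsDiscreteValuationRing.irreducible_iff_uniformizer ϖ).1 hϖ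
  have hinv : ∀ y : L, 1 < A.valuation y → A.valuation y⁻¹ < 1 := by
    intro y hy
    rw [map_inv₀]
    exact inv_lt_one_of_one_lt₀ hy
  have hpos : ∀ y : L, 1 < A.valuation y → 0 < A.valuation y := fun y hy => zero_lt_one.trans hy
  have hz0 : z ≠ 0 := by
    rintro rfl
    simp at hz
  have hzi := hinv z hz
  set zi : A := ⟨z⁻¹, (A.valuation_le_one_iff _).1 hzi.le⟩ with hzidef
  have hzi0 : zi ≠ 0 := by
    intro h
    have : (zi : L) = 0 := by rw [h]; rfl
    exact inv_ne_zero hz0 this
  obtain ⟨n, hn⟩ := IsDiscreteValuationRing.associated_pow_irreducible hzi0 hϖ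
  have hval : ∀ x y : A, Associated x y → A.valuation (x : L) = A.valuation (y : L) := by
    rintro x y ⟨u, rfl⟩
    have hu : A.valuation ((u : A) : L) = 1 := A.valuation_unit u
    rw [show ((x * (u : A) : A) : L) = (x : L) * ((u : A) : L) from rfl, map_mul, hu, mul_one]
  have hzn : A.valuation z⁻¹ = A.valuation (ϖ : L) ^ n := by
    rw [← map_pow]
    exact hval _ _ hn
  refine ⟨ϖ, n, ϖ.2, ?_, ?_, ?_⟩
  · rcases Nat.eq_zero_or_pos n with h | h
    · rw [h, pow_zero] at hzn
      rw [hzn] at hzi
      exact absurd hzi (lt_irrefl _)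
    · exact h
  · rw [← hzn, ← map_mul, mul_inv_cancel₀ hz0, map_one]
  · intro y hy
    have hy0 : y ≠ 0 := by
      rintro rfl
      simp at hy
    have hyi := hinv y hy
    set yi : A := ⟨y⁻¹, (A.valuation_le_one_iff _).1 hyi.le⟩ with hyidef
    have hmem : yi ∈ IsLocalRing.maximalIdeal A := by
      rw [ValuationSubring.valuation_lt_one_iff]
      exact hyi
    rw [hϖm, Ideal.mem_span_singleton] at hmem
    obtain ⟨q, hq⟩ := hmem
    have hq' : y⁻¹ = (ϖ : L) * (q : L) := congrArg Subtype.val hq
    have h1 : A.valuation y⁻¹ ≤ A.valuation (ϖ : L) := by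
      rw [hq', map_mul]
      exact mul_le_of_le_one_right' ((A.valuation_le_one_iff _).2 q.2)
    rw [map_mul]
    calc (1 : A.ValueGroup) = A.valuation y * A.valuation y⁻¹ := by
          rw [← map_mul, mul_inv_cancel₀ hy0, map_one]
      _ ≤ A.valuation y * A.valuation (ϖ : L) := by gcongr

/-- the derivative of an element with a pole of order at most `r` -/
theorem der_pole {D : Derivation k L L} {N : AddSubgroup L} (hS : Stable A D N) {π : L}
    (hπ : π ∈ A) (r : ℕ) {x : L} (hx : x * π ^ r ∈ A) : D x * π ^ (r + 1) ∈ N := by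
  obtain ⟨h1, h2⟩ := hS
  have h3 : D (x * π ^ r) ∈ N := h2 _ hx
  have e : D x * π ^ (r + 1) = π * D (x * π ^ r) - r • ((x * π ^ r) * D π) := by
    rw [Derivation.leibniz, Derivation.leibniz_pow]
    rcases r with _ | r
    · simp only [pow_zero, zero_smul, zero_add, smul_eq_mul, one_mul, pow_one, sub_zero]
      ring
    · simp only [smul_eq_mul, nsmul_eq_mul, Nat.add_sub_cancel]
      ring
  rw [e]
  exact N.sub_mem (h1 _ hπ _ h3) (N.nsmul_mem (h1 _ hx _ (h2 _ hπ)) _)

end

theorem t_LOC2 : S_LOC2.{u} := by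
  intro p s _ k L _ _ _ _ h x z w A D N hs he hpe hA hS hw hx hcase a b hab
  obtain ⟨hk, hD, -⟩ := hA
  rcases hcase with ⟨hz, hwA⟩ | ⟨hz, -, hzw, hwz, hxz⟩
  · exact hS.1 _ (A.mul_mem _ _ (pow_mem hz a) (pow_mem hwA b)) _ (hS.2 _ hz)
  have hz1 : 1 < A.valuation z := by
    rw [← not_le, A.valuation_le_one_iff]
    exact hz
  have hz0 : z ≠ 0 := by
    rintro rfl
    simp at hz1
  have hvz0 : A.valuation z ≠ 0 := (zero_lt_one.trans hz1).ne'
  obtain ⟨π, n, hπ, hn, hzn, hdi⟩ := exists_unif A hD hz1
  have hπ0 : A.valuation π ≠ 0 := by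
    intro h0
    rw [h0, zero_pow (by omega), mul_zero] at hzn
    exact zero_ne_one hzn
  have hπL : π ≠ 0 := by
    rintro rfl
    simp at hπ0
  -- the valuation of `w`
  have hvw : A.valuation w ≤ A.valuation z := by
    have := (A.valuation_le_one_iff _).2 hwz
    rw [map_div₀] at this
    exact (div_le_one₀ (zero_lt_iff.2 hvz0)).1 this
  -- the difference
  set Δ := aeval z h - aeval w h with hΔ
  have hp2 : 2 ≤ p ^ s := by
    have hp := (Fact.out : p.Prime).two_le
    calc 2 ≤ p := hp
      _ = p ^ 1 := (pow_one p).symm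
      _ ≤ p ^ s := Nat.pow_le_pow_right (by omega) hs
  have hΔA : Δ * π ^ (n - 1) ∈ A := by
    rw [← A.valuation_le_one_iff]
    by_contra hcon
    rw [not_le] at hcon
    have h1 := hdi _ hcon
    have h2 : Δ * π ^ (n - 1) * π = Δ * π ^ n := by
      rw [mul_assoc, ← pow_succ]
      congr 2
      omega
    rw [h2, map_mul, map_pow] at h1
    have h3 : A.valuation z ≤ A.valuation Δ := by
      have h4 : 0 < A.valuation π ^ n := pow_pos (zero_lt_iff.2 hπ0) n
      rw [← hzn] at h1
      exact le_of_mul_le_mul_right h1 h4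
    have h5 : A.valuation x ≤ A.valuation z := by
      have := (A.valuation_le_one_iff _).2 hxz
      rw [map_div₀] at this
      exact (div_le_one₀ (zero_lt_iff.2 hvz0)).1 this
    have h6 : A.valuation x = A.valuation Δ ^ (p ^ s) := by
      rw [← hx, map_pow]
    have h7 : A.valuation z < A.valuation z ^ (p ^ s) := by
      conv_lhs => rw [← pow_one (A.valuation z)]
      exact pow_lt_pow_right₀ hz1 (by omega)
    have h8 : A.valuation z ^ (p ^ s) ≤ A.valuation Δ ^ (p ^ s) := pow_le_pow_left' h3 _
    rw [← h6] at h8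
    exact absurd (h7.trans_le (h8.trans h5)) (lt_irrefl _)
  have hDΔ : D Δ * π ^ n ∈ N := by
    have := der_pole A hS hπ (n - 1) hΔA
    rwa [show n - 1 + 1 = n by omega] at this
  have hDΔ' : D Δ = aeval z (derivative h) * D z := by
    rw [hΔ, map_sub, Derivation.map_aeval, Derivation.map_aeval, hw, smul_zero, sub_zero,
      smul_eq_mul]
  -- the derivative of `h`
  have hcast : ((h.natDegree : ℕ) : k) ≠ 0 := by
    intro h0
    exact hpe ((CharP.cast_eq_zero_iff k p _).1 h0)
  have hh0 : h ≠ 0 := by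
    rintro rfl
    simp at he
  have hco : (derivative h).coeff (h.natDegree - 1) ≠ 0 := by
    rw [coeff_derivative, show h.natDegree - 1 + 1 = h.natDegree by omega]
    have e : (((h.natDegree - 1 : ℕ) : k) + 1) = (h.natDegree : k) := by
      rw [← Nat.cast_one (R := k), ← Nat.cast_add]
      congr 1
      omega
    rw [e]
    exact mul_ne_zero (by simpa using hh0) hcast
  have hd0 : derivative h ≠ 0 := by
    intro h0
    rw [h0] at hco
    simp at hco
  have hdeg : (derivative h).natDegree = h.natDegree - 1 :=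
    le_antisymm (natDegree_derivative_le h) (le_natDegree_of_ne_zero hco)
  have hvd := v_poly A hk hz1 hd0
  rw [hdeg] at hvd
  have hvd0 : aeval z (derivative h) ≠ 0 := by
    intro h0
    rw [h0, map_zero] at hvd
    exact pow_ne_zero _ hvz0 hvd.symm
  -- the end
  have key : z ^ a * w ^ b * D z =
      (z ^ a * w ^ b * (aeval z (derivative h))⁻¹ * (π ^ n)⁻¹) * (D Δ * π ^ n) := by
    rw [hDΔ']
    have := pow_ne_zero n hπL
    field_simp
  rw [key]
  refine hS.1 _ ?_ _ hDΔ
  rw [← A.valuation_le_one_iff]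
  have hπn : A.valuation (π ^ n)⁻¹ = A.valuation z := by
    rw [map_inv₀, map_pow]
    exact (eq_inv_of_mul_eq_one_left hzn).symm
  rw [map_mul, hπn, map_mul, map_inv₀, hvd, map_mul, map_pow, map_pow]
  have h9 : A.valuation z ^ a * A.valuation w ^ b * A.valuation z ≤
      A.valuation z ^ (h.natDegree - 1) := by
    calc A.valuation z ^ a * A.valuation w ^ b * A.valuation z ≤
        A.valuation z ^ a * A.valuation z ^ b * A.valuation z := by gcongr
      _ = A.valuation z ^ (a + b + 1) := by rw [pow_succ, pow_add]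
      _ ≤ A.valuation z ^ (h.natDegree - 1) := pow_le_pow_right₀ hz1.le (by omega)
  have h10 : 0 < A.valuation z ^ (h.natDegree - 1) := pow_pos (zero_lt_iff.2 hvz0) _
  calc A.valuation z ^ a * A.valuation w ^ b * (A.valuation z ^ (h.natDegree - 1))⁻¹ *
      A.valuation z = (A.valuation z ^ a * A.valuation w ^ b * A.valuation z) *
        (A.valuation z ^ (h.natDegree - 1))⁻¹ := by
        rw [mul_right_comm]
    _ ≤ A.valuation z ^ (h.natDegree - 1) * (A.valuation z ^ (h.natDegree - 1))⁻¹ := by gcongr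
    _ = 1 := mul_inv_cancel₀ h10.ne'

end Pool.Agent.N78.WU
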